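import Pool.Agent.H57.UGB.Api
import Pool.Agent.H57.UGB.Free
import Pool.Agent.H29.UG.Elim0

/-!
# Elimination of the jets of the last coordinate
-/

set_option autoImplicit false

open MvPolynomial

namespace Pool.Agent.H57.UGB

open Pool.Agent.H47.KB Pool.Agent.H47.UG Pool.Agent.H29.UG

theorem Free.add {n k : ℕ} {E E' : JR n k} (h : Free E) (h' : Free E') : Free (E + E') := by
  classical
  intro v hv
  rcases Finset.mem_union.1 (vars_add_subset _ _ hv) with h1 | h1
  · exact h v h1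
  · exact h' v h1

theorem Free.mul {n k : ℕ} {E E' : JR n k} (h : Free E) (h' : Free E') : Free (E * E') := by
  classical
  intro v hv
  rcases Finset.mem_union.1 (vars_mul _ _ hv) with h1 | h1
  · exact h v h1
  · exact h' v h1

theorem free_C {n k : ℕ} (z : ℂ) : Free (C z : JR n k) := by
  intro v hv
  rw [vars_C] at hv
  exact absurd hv (Finset.notMem_empty _)

theorem free_inl {n k : ℕ} (α : Fin (n + 2) →₀ ℕ) : Free (X (Sum.inl α) : JR n k) := by
  intro v hv
  rw [vars_X, Finset.mem_singleton] at hv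
  exact absurd hv (by simp)

theorem free_inr {n k : ℕ} (v : Fin (n + 2) × Fin (k + 1)) (h0 : v.1 ≠ 0)
    (h1 : v.1 = Fin.last (n + 1) → v.2 = 0) : Free (X (Sum.inr v) : JR n k) := by
  intro w hw
  rw [vars_X, Finset.mem_singleton] at hw
  have := Sum.inr_injective hw
  subst this
  exact ⟨h0, h1⟩

/-- `E` is equal to a free polynomial at the points with `y 0 = 1`, without denominators. -/
def FrE (n k : ℕ) : Subalgebra ℂ (JR n k) where
  carrier := {E | ∃ E' : JR n k, Free E' ∧ ∀ (R : Type) [CommRing R] [Algebra ℂ R]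
    (a : (Fin (n + 2) →₀ ℕ) → R) (y : Fin (n + 2) → PowerSeries R), y 0 = 1 → pt a y E = pt a y E'}
  mul_mem' := by
    rintro E F ⟨E', hE, h1⟩ ⟨F', hF, h2⟩
    refine ⟨E' * F', hE.mul hF, fun R _ _ a y hy => ?_⟩
    rw [map_mul, map_mul, h1 R a y hy, h2 R a y hy]
  add_mem' := by
    rintro E F ⟨E', hE, h1⟩ ⟨F', hF, h2⟩
    refine ⟨E' + F', hE.add hF, fun R _ _ a y hy => ?_⟩
    rw [map_add, map_add, h1 R a y hy, h2 R a y hy]
  algebraMap_mem' := fun z => ⟨C z, free_C z, fun R _ _ a y _ => rfl⟩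

theorem inl_mem_FrE {n k : ℕ} (α : Fin (n + 2) →₀ ℕ) : (X (Sum.inl α) : JR n k) ∈ FrE n k :=
  ⟨_, free_inl α, fun _ _ _ _ _ _ => rfl⟩

theorem zero_mem_FrE {n k : ℕ} (s : Fin (k + 1)) : (X (Sum.inr (0, s)) : JR n k) ∈ FrE n k := by
  refine ⟨C (if (s : ℕ) = 0 then 1 else 0), free_C _, fun R _ _ a y hy => ?_⟩
  rw [pt_inr, hy, PowerSeries.coeff_one]
  have h1 : ∀ z : ℂ, pt a y (C z : JR n k) = algebraMap ℂ R z := fun z => (pt a y).commutes z
  rw [h1]
  split_ifs <;> simp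

theorem coeff_mem_FrE {n k : ℕ} (j : Fin (n + 2)) (s : ℕ) (h : j = Fin.last (n + 1) → s = 0) :
    PowerSeries.coeff s (uy n k j) ∈ FrE n k := by
  by_cases hs : s ≤ k
  · rw [coeff_uy_of_le j hs]
    by_cases hj : j = 0
    · subst hj
      exact zero_mem_FrE _
    · refine ⟨_, free_inr _ hj fun h1 => ?_, fun _ _ _ _ _ _ => rfl⟩
      exact Fin.ext (h h1)
  · rw [coeff_uy_of_lt j (by omega)]
    exact Subalgebra.zero_mem _

theorem aeval_mem {n k : ℕ} (B : Subalgebra ℂ (JR n k)) (G : MvPolynomial (Fin (n + 2)) B)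
    (x : Fin (n + 2) → JR n k) (hx : ∀ i, x i ∈ B) : aeval x G ∈ B := by
  induction G using MvPolynomial.induction_on with
  | C a =>
    rw [aeval_C]
    exact a.2
  | add p q hp hq =>
    rw [map_add]
    exact B.add_mem hp hq
  | mul_X p i hp =>
    rw [map_mul, aeval_X]
    exact B.mul_mem hp (hx i)

/-- The universal coefficients in a subalgebra. -/
noncomputable def uaB {n k : ℕ} (B : Subalgebra ℂ (JR n k)) (h : ∀ α, (X (Sum.inl α) : JR n k) ∈ B) :
    (Fin (n + 2) →₀ ℕ) → B := fun α => ⟨X (Sum.inl α), h α⟩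

theorem map_genB {n k : ℕ} (d : ℕ) (B : Subalgebra ℂ (JR n k)) (h : ∀ α, (X (Sum.inl α) : JR n k) ∈ B) :
    map (algebraMap B (JR n k)) (gen n d (uaB B h)) = gen n d (ua n k) := by
  rw [map_gen]
  rfl

theorem pderiv_mem {n k : ℕ} (d : ℕ) (B : Subalgebra ℂ (JR n k)) (h : ∀ α, (X (Sum.inl α) : JR n k) ∈ B)
    (i : Fin (n + 2)) (x : Fin (n + 2) → JR n k) (hx : ∀ i, x i ∈ B) :
    eval x (pderiv i (gen n d (ua n k))) ∈ B := by
  have h1 := aeval_mem B (pderiv i (gen n d (uaB B h))) x hx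
  rwa [← map_genB d B h, pderiv_map, eval_map, ← aeval_def]

theorem FL_mem_FrE (n d k : ℕ) : FL d (ua n k) (uy n k) ∈ FrE n k :=
  pderiv_mem d (FrE n k) inl_mem_FrE _ _ fun j => by
    have h := coeff_mem_FrE (n := n) (k := k) j 0 fun _ => rfl
    rwa [PowerSeries.coeff_zero_eq_constantCoeff_apply] at h

/-- The polynomials for which the elimination holds. -/
def GdE (n d k : ℕ) : Subalgebra ℂ (JR n k) where
  carrier := {E | ∃ (N : ℕ) (E' : JR n k), E' ∈ FrE n k ∧ ∀ (R : Type) [CommRing R] [Algebra ℂ R]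
    (a : (Fin (n + 2) →₀ ℕ) → R) (y : Fin (n + 2) → PowerSeries R), OnT d k a y → y 0 = 1 →
    (pt a y (FL d (ua n k) (uy n k))) ^ N * pt a y E = pt a y E'}
  mul_mem' := by
    rintro E F ⟨N, E', hE, h1⟩ ⟨M, F', hF, h2⟩
    refine ⟨N + M, E' * F', Subalgebra.mul_mem _ hE hF, fun R _ _ a y hT hy => ?_⟩
    rw [map_mul, map_mul, ← h1 R a y hT hy, ← h2 R a y hT hy]
    ring
  add_mem' := by
    rintro E F ⟨N, E', hE, h1⟩ ⟨M, F', hF, h2⟩
    have hL : FL d (ua n k) (uy n k) ∈ FrE n k := FL_mem_FrE n d k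
    refine ⟨N + M, FL d (ua n k) (uy n k) ^ M * E' + FL d (ua n k) (uy n k) ^ N * F',
      Subalgebra.add_mem _ (Subalgebra.mul_mem _ (Subalgebra.pow_mem _ hL _) hE)
        (Subalgebra.mul_mem _ (Subalgebra.pow_mem _ hL _) hF), fun R _ _ a y hT hy => ?_⟩
    rw [map_add, map_add, map_mul, map_mul, map_pow, map_pow, ← h1 R a y hT hy, ← h2 R a y hT hy]
    ring
  algebraMap_mem' := fun z => ⟨0, C z, Subalgebra.algebraMap_mem _ z, fun R _ _ a y _ _ => by
    rw [pow_zero, one_mul]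
    rfl⟩

theorem FrE_le_GdE (n d k : ℕ) : FrE n k ≤ GdE n d k := fun E hE =>
  ⟨0, E, hE, fun _ _ _ _ _ _ _ => by rw [pow_zero, one_mul]⟩

theorem low_le {n k : ℕ} (B : Subalgebra ℂ (JR n k)) (y : Fin (n + 2) → PowerSeries (JR n k)) (s : ℕ)
    (h : ∀ j, ∀ t < s, PowerSeries.coeff t (y j) ∈ B) : ∀ v ∈ low B y s, v ∈ B := by
  intro v hv
  unfold low at hv
  refine Algebra.adjoin_induction ?_ ?_ ?_ ?_ hv
  · rintro _ ⟨j, t, ht, rfl⟩
    exact h j t ht
  · intro r
    exact r.2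
  · exact fun _ _ _ _ h1 h2 => B.add_mem h1 h2
  · exact fun _ _ _ _ h1 h2 => B.mul_mem h1 h2

theorem y0_uy (n k : ℕ) : y0 (uy n k) = fun j => PowerSeries.constantCoeff (uy n k j) := by
  funext j
  unfold y0
  rw [PowerSeries.coeff_zero_eq_constantCoeff_apply]

/-- The equation of order `s` in terms of the lower orders. -/
theorem lead_mem {n k : ℕ} (d : ℕ) (B : Subalgebra ℂ (JR n k)) (h : ∀ α, (X (Sum.inl α) : JR n k) ∈ B)
    (h0 : ∀ j, PowerSeries.coeff 0 (uy n k j) ∈ B) (s : ℕ) (hs : 1 ≤ s)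
    (hlow : ∀ j, ∀ t < s, PowerSeries.coeff t (uy n k j) ∈ B)
    (hot : ∀ j, j ≠ Fin.last (n + 1) → PowerSeries.coeff s (uy n k j) ∈ B) :
    Fc n d k s - FL d (ua n k) (uy n k) * PowerSeries.coeff s (uy n k (Fin.last (n + 1))) ∈ B := by
  classical
  have h1 := low_le _ _ _ hlow _ (coeff_lead_map (R0 := B) (uy n k) s hs (gen n d (uaB B h)))
  rw [map_genB, ← Finset.add_sum_erase _ _ (Finset.mem_univ (Fin.last (n + 1))), y0_uy] at h1
  have h4 : ∑ i ∈ Finset.univ.erase (Fin.last (n + 1)),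
      eval (fun j => PowerSeries.constantCoeff (uy n k j)) (pderiv i (gen n d (ua n k))) *
        PowerSeries.coeff s (uy n k i) ∈ B := by
    refine Subalgebra.sum_mem _ fun i hi => Subalgebra.mul_mem _ ?_ ?_
    · refine pderiv_mem d B h i _ fun j => ?_
      rw [← PowerSeries.coeff_zero_eq_constantCoeff_apply]
      exact h0 j
    · exact hot i (Finset.ne_of_mem_erase hi)
  have h5 := Subalgebra.add_mem _ h1 h4
  rw [sub_add_eq_sub_sub, sub_add_cancel] at h5
  exact h5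

theorem last_mem_GdE (n d k : ℕ) (s : ℕ) (hs : s ≤ k) :
    PowerSeries.coeff s (uy n k (Fin.last (n + 1))) ∈ GdE n d k := by
  classical
  induction s using Nat.strong_induction_on with
  | _ s ih =>
  by_cases h0 : s = 0
  · subst h0
    exact FrE_le_GdE n d k (coeff_mem_FrE _ _ fun _ => rfl)
  have hlow : ∀ j, ∀ t < s, PowerSeries.coeff t (uy n k j) ∈ GdE n d k := by
    intro j t ht
    by_cases hj : j = Fin.last (n + 1)
    · subst hj
      exact ih t ht (by omega)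
    · exact FrE_le_GdE n d k (coeff_mem_FrE _ _ fun h => absurd h hj)
  have hinl : ∀ α, (X (Sum.inl α) : JR n k) ∈ GdE n d k := fun α => FrE_le_GdE n d k (inl_mem_FrE α)
  obtain ⟨N, E', hE', h5⟩ := lead_mem d (GdE n d k) hinl
    (fun j => FrE_le_GdE n d k (coeff_mem_FrE _ _ fun _ => rfl)) s (by omega) hlow
    (fun j hj => FrE_le_GdE n d k (coeff_mem_FrE _ _ fun h => absurd h hj))
  refine ⟨N + 1, -E', Subalgebra.neg_mem _ hE', fun R _ _ a y hT hy => ?_⟩
  have h6 := h5 R a y hT hy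
  rw [map_sub, pt_Fc d hs, hT s hs, map_mul] at h6
  rw [map_neg, ← h6]
  ring

theorem elim (n d k : ℕ) (E : JR n k) : ∃ (N : ℕ) (E' : JR n k), Free E' ∧
    ∀ (R : Type) [CommRing R] [Algebra ℂ R] (a : (Fin (n + 2) →₀ ℕ) → R) (y : Fin (n + 2) → PowerSeries R),
      OnT d k a y → y 0 = 1 → FL d a y ^ N * pt a y E = pt a y E' := by
  have h : E ∈ GdE n d k := by
    induction E using MvPolynomial.induction_on with
    | C a => exact Subalgebra.algebraMap_mem _ a
    | add p q hp hq => exact Subalgebra.add_mem _ hp hq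
    | mul_X p v hp =>
      refine Subalgebra.mul_mem _ hp ?_
      rcases v with α | ⟨j, s⟩
      · exact FrE_le_GdE n d k (inl_mem_FrE α)
      · rw [← coeff_uy]
        by_cases hj : j = Fin.last (n + 1)
        · subst hj
          exact last_mem_GdE n d k s (by omega)
        · exact FrE_le_GdE n d k (coeff_mem_FrE _ _ fun h => absurd h hj)
  obtain ⟨N, E', ⟨E'', hF, h1⟩, h2⟩ := h
  refine ⟨N, E'', hF, fun R _ _ a y hT hy => ?_⟩
  rw [← h1 R a y hy, ← h2 R a y hT hy, pt_FL]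

end Pool.Agent.H57.UGB
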